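import Pool.Agent.helper7.RC.Defs

/-!
# Absolute retracts exist in residually small varieties

Every subdirectly irreducible member of a residually small variety embeds in an absolute retract.  The extensions are
coded by multiplication tables on a large set; a maximal table exists by Zorn's lemma, unions of chains are direct
limits.
-/

namespace Pool.Agent.helper80.RN

open Pool.Agent.helper80.RSV Pool.Agent.helper7.RC Function

/- `S` is the carrier of the tables -/
variable {S : Type}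

/-- `M` is the table of the group `E` embedded in `S` by `e` -/
def TabOf {E : Type} [Group E] (e : E → S) (M : Set (S × S × S)) : Prop :=
  ∀ s t u, (s, t, u) ∈ M ↔ ∃ x y : E, e x = s ∧ e y = t ∧ e (x * y) = u

/-- `M` is the table of an extension of `G` -/
def IsTab (W : Set (FreeGroup ℕ)) {G : Type} [Group G] (a : G) (e0 : G → S) (M : Set (S × S × S)) : Prop :=
  ∃ (E : Type) (_ : Group E) (ι : G →* E) (e : E → S), Injective e ∧ (∀ x, e (ι x) = e0 x) ∧ Sat W E ∧
    ASI (ι a) ∧ TabOf e M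

theorem tab_hom {E E' : Type} [Group E] [Group E'] {e : E → S} {e' : E' → S} (he' : Injective e')
    {M M' : Set (S × S × S)} (hM : TabOf e M) (hM' : TabOf e' M') (h : M ⊆ M') :
    ∃ φ : E →* E', ∀ x, e' (φ x) = e x := by
  have h1 : ∀ x : E, ∃ x' : E', e' x' = e x := by
    intro x
    have h2 : (e x, e x, e (x * x)) ∈ M := (hM _ _ _).mpr ⟨x, x, rfl, rfl, rfl⟩
    obtain ⟨x', _, h3, _, _⟩ := (hM' _ _ _).mp (h h2)
    exact ⟨x', h3⟩
  choose φ hφ using h1
  refine ⟨MonoidHom.mk' φ fun x y => ?_, hφ⟩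
  have h2 : (e x, e y, e (x * y)) ∈ M := (hM _ _ _).mpr ⟨x, y, rfl, rfl, rfl⟩
  obtain ⟨x', y', h3, h4, h5⟩ := (hM' _ _ _).mp (h h2)
  have h6 : x' = φ x := he' (h3.trans (hφ x).symm)
  have h7 : y' = φ y := he' (h4.trans (hφ y).symm)
  subst h6 h7
  exact he' ((hφ (x * y)).trans h5.symm)

/-- the union of a chain of tables is a table -/
theorem chain_tab {W : Set (FreeGroup ℕ)} {G : Type} [Group G] {a : G} {e0 : G → S}
    {c : Set (Set (S × S × S))} (hc : ∀ M ∈ c, IsTab W a e0 M) (hch : IsChain (· ⊆ ·) c) (hne : c.Nonempty) :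
    IsTab W a e0 (⋃₀ c) := by
  classical
  have h : ∀ i : c, IsTab W a e0 i.1 := fun i => hc i.1 i.2
  choose E hG ι e he hι hS hA hM using h
  have hφ : ∀ i j : c, i ≤ j → ∃ φ : E i →* E j, ∀ x, e j (φ x) = e i x :=
    fun i j hij => tab_hom (he j) (hM i) (hM j) hij
  choose φ hφ using hφ
  have hds : DirectedSystem E (fun i j h => φ i j h) :=
    ⟨fun i x => he i (hφ i i le_rfl x), fun k j i hij hjk x => he k (by rw [hφ, hφ, hφ])⟩
  have : IsDirectedOrder c := ⟨fun i j => by
    rcases hch.total i.2 j.2 with h | h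
    · exact ⟨j, h, le_rfl⟩
    · exact ⟨i, le_rfl, h⟩⟩
  have hcn : Nonempty c := hne.to_subtype
  obtain ⟨i0, -⟩ : ∃ _ : c, True := ⟨Classical.choice hcn, trivial⟩
  -- the maps into the limit
  let of : ∀ i : c, E i →* DirectLimit E φ := fun i =>
    MonoidHom.mk' (fun x => ⟦⟨i, x⟩⟧) fun x y => (DirectLimit.mul_def (f := φ) i x y).symm
  have hof : ∀ i x, of i x = ⟦⟨i, x⟩⟧ := fun _ _ => rfl
  have hofle : ∀ i j (h : i ≤ j) x, of j (φ i j h x) = of i x := fun i j h x =>
    DirectLimit.mk_apply (f := φ) i j x h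
  have hsurj : ∀ z : DirectLimit E φ, ∃ i x, z = of i x := fun z => DirectLimit.exists_eq_mk φ z
  let eL : DirectLimit E φ → S := DirectLimit.lift φ (fun i => e i) fun i j h x => by
    exact (hφ i j h x).symm
  have heL : ∀ i x, eL (of i x) = e i x := fun _ _ => rfl
  have heLinj : Injective eL := DirectLimit.lift_injective _ _ _ fun i => he i
  have hofinj : ∀ i, Injective (of i) := fun i x y hxy => he i (by rw [← heL, ← heL, hxy])
  have hofι : ∀ i x, of i (ι i x) = of i0 (ι i0 x) := fun i x => heLinj (by rw [heL, heL, hι, hι])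
  refine ⟨DirectLimit E φ, inferInstance, (of i0).comp (ι i0), eL, heLinj, fun x => ?_, ?_, ?_, ?_⟩
  · show eL (of i0 (ι i0 x)) = e0 x
    rw [heL, hι]
  · intro w hw f
    obtain ⟨k, hk⟩ := exists_bound w
    have h1 : ∀ m : ℕ, ∃ i, ∃ g : ℕ → E i, ∀ n < m, f n = of i (g n) := by
      intro m
      induction m with
      | zero => exact ⟨i0, fun _ => 1, fun n hn => absurd hn (Nat.not_lt_zero n)⟩
      | succ m ih =>
        obtain ⟨i, g, hg⟩ := ih
        obtain ⟨j, x, hx⟩ := hsurj (f m)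
        obtain ⟨l, hil, hjl⟩ := exists_ge_ge i j
        refine ⟨l, fun n => if n < m then φ i l hil (g n) else φ j l hjl x, fun n hn => ?_⟩
        by_cases hnm : n < m
        · simp only [hnm, if_true]
          rw [hofle, hg n hnm]
        · have h2 : n = m := by omega
          subst h2
          simp only [lt_irrefl, if_false]
          rw [hofle, hx]
    obtain ⟨i, g, hg⟩ := h1 k
    rw [hk (DirectLimit E φ) f (fun n => of i (g n)) hg]
    have h2 := map_lift (of i) g w
    have h3 := hS i w hw g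
    rw [h3, map_one] at h2
    exact h2.symm
  · refine ⟨fun h1 => ?_, fun N hN hne => ?_⟩
    · have h2 : of i0 (ι i0 a) = of i0 1 := by rw [map_one]; exact h1
      exact (hA i0).1 (hofinj i0 h2)
    · obtain ⟨z, hz, hz1⟩ : ∃ z ∈ N, z ≠ 1 := by
        by_contra hcon
        push Not at hcon
        exact hne ((Subgroup.eq_bot_iff_forall N).mpr hcon)
      obtain ⟨i, x, rfl⟩ := hsurj z
      have := hN
      have h1 : ι i a ∈ N.comap (of i) := by
        refine (hA i).2 _ inferInstance fun hb => ?_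
        have h2 : x ∈ N.comap (of i) := hz
        rw [hb, Subgroup.mem_bot] at h2
        exact hz1 (by rw [h2, map_one])
      have h2 : of i (ι i a) ∈ N := h1
      rw [hofι] at h2
      exact h2
  · intro s t u
    rw [Set.mem_sUnion]
    constructor
    · rintro ⟨M, hMc, hm⟩
      obtain ⟨x, y, h1, h2, h3⟩ := (hM ⟨M, hMc⟩ s t u).mp hm
      refine ⟨of ⟨M, hMc⟩ x, of ⟨M, hMc⟩ y, h1, h2, ?_⟩
      rw [← map_mul]
      exact h3
    · rintro ⟨x, y, h1, h2, h3⟩
      obtain ⟨i, x, rfl⟩ := hsurj x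
      obtain ⟨j, y, rfl⟩ := hsurj y
      obtain ⟨l, hil, hjl⟩ := exists_ge_ge i j
      refine ⟨l.1, l.2, (hM l s t u).mpr ⟨φ i l hil x, φ j l hjl y, ?_, ?_, ?_⟩⟩
      · rw [hφ, ← h1, heL]
      · rw [hφ, ← h2, heL]
      · rw [← heL, map_mul, hofle, hofle, h3]

theorem exists_AR {W : Set (FreeGroup ℕ)} (hR : ResSmall W) {G : Type} [Group G] (hG : Sat W G)
    {a : G} (ha : ASI a) :
    ∃ (E : Type) (_ : Group E) (ι : G →* E), Function.Injective ι ∧ Sat W E ∧ ASI (ι a) ∧
      AR W E (ι a) := by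
  classical
  obtain ⟨κ, hκ⟩ := hR
  obtain ⟨S, hS0, hS⟩ : ∃ S : Type, Infinite S ∧ κ ≤ Cardinal.mk S := by
    refine ⟨(max κ Cardinal.aleph0).out, ?_, ?_⟩
    · rw [Cardinal.infinite_iff, Cardinal.mk_out]
      exact le_max_right _ _
    · rw [Cardinal.mk_out]
      exact le_max_left _ _
  have hcard : ∀ (E : Type) [Group E] (b : E), Sat W E → ASI b → Cardinal.mk E < Cardinal.mk S := by
    intro E _ b hE hb
    exact lt_of_lt_of_le (hκ E hE hb.subdirIrr) hS
  obtain ⟨e0⟩ : Nonempty (G ↪ S) := Cardinal.le_def _ _ |>.mp (hcard G a hG ha).le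
  have hbase : IsTab W a e0 {m | ∃ x y : G, m = (e0 x, e0 y, e0 (x * y))} := by
    refine ⟨G, inferInstance, MonoidHom.id G, e0, e0.injective, fun _ => rfl, hG, ha, fun s t u => ?_⟩
    constructor
    · rintro ⟨x, y, h⟩
      rw [Prod.mk.injEq, Prod.mk.injEq] at h
      exact ⟨x, y, h.1.symm, h.2.1.symm, h.2.2.symm⟩
    · rintro ⟨x, y, rfl, rfl, rfl⟩
      exact ⟨x, y, rfl⟩
  obtain ⟨M, -, hmax⟩ := zorn_subset_nonempty {M | IsTab W a e0 M}
    (fun c hcs hch hne => ⟨⋃₀ c, chain_tab (fun M hM => hcs hM) hch hne, fun s hs => Set.subset_sUnion_of_mem hs⟩)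
    _ hbase
  obtain ⟨E, hEG, ι, e, he, hι, hE, hA, hM⟩ := hmax.prop
  refine ⟨E, hEG, ι, fun x y hxy => e0.injective (by rw [← hι, ← hι, hxy]), hE, hA, ?_⟩
  intro H _ hH j N hN haN
  obtain ⟨N', hN', hNN', haN', hmaxN⟩ := exists_max_avoid hN haN
  have := hN'
  have hQ : Sat W (H ⧸ N') := hH.quotient N'
  have hQA : ASI ((QuotientGroup.mk' N') (j (ι a))) := aSI_quotient haN' hmaxN
  let k : E →* H ⧸ N' := (QuotientGroup.mk' N').comp j
  have hkinj : Injective k := by
    rw [← MonoidHom.ker_eq_bot_iff]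
    by_contra hne
    have h1 := hA.2 k.ker inferInstance hne
    exact hQA.1 h1
  have hksurj : Surjective k := by
    have h1 : Cardinal.mk (H ⧸ N') < Cardinal.mk S := hcard _ _ hQ hQA
    have h2 : Cardinal.mk (Set.range e) < Cardinal.mk S := by
      rw [Cardinal.mk_range_eq e he]
      exact hcard E _ hE hA
    have h3 : Cardinal.mk ((Set.range e)ᶜ : Set S) = Cardinal.mk S := Cardinal.mk_compl_of_infinite _ h2
    obtain ⟨g⟩ : Nonempty ((H ⧸ N') ↪ ((Set.range e)ᶜ : Set S)) :=
      Cardinal.le_def _ _ |>.mp (by rw [h3]; exact h1.le)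
    let e' : H ⧸ N' → S := fun q => if h : ∃ x, k x = q then e h.choose else (g q).1
    have he'1 : ∀ x, e' (k x) = e x := by
      intro x
      have h : ∃ y, k y = k x := ⟨x, rfl⟩
      show (if h : ∃ y, k y = k x then e h.choose else (g (k x)).1) = e x
      rw [dif_pos h]
      exact congrArg e (hkinj h.choose_spec)
    have he'2 : ∀ q, (¬ ∃ x, k x = q) → e' q = (g q).1 := by
      intro q h
      show (if h : ∃ y, k y = q then e h.choose else (g q).1) = (g q).1
      rw [dif_neg h]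
    have he' : Injective e' := by
      intro p q hpq
      by_cases hp : ∃ x, k x = p <;> by_cases hq : ∃ x, k x = q
      · obtain ⟨x, rfl⟩ := hp
        obtain ⟨y, rfl⟩ := hq
        rw [he'1, he'1] at hpq
        rw [he hpq]
      · obtain ⟨x, rfl⟩ := hp
        rw [he'1, he'2 q hq] at hpq
        exact absurd ⟨x, hpq⟩ (g q).2
      · obtain ⟨y, rfl⟩ := hq
        rw [he'1, he'2 p hp] at hpq
        exact absurd ⟨y, hpq.symm⟩ (g p).2
      · rw [he'2 p hp, he'2 q hq] at hpq
        exact g.injective (Subtype.ext hpq)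
    let M' : Set (S × S × S) := {m | ∃ x y : H ⧸ N', m = (e' x, e' y, e' (x * y))}
    have hM' : TabOf e' M' := by
      intro s t u
      constructor
      · rintro ⟨x, y, h⟩
        rw [Prod.mk.injEq, Prod.mk.injEq] at h
        exact ⟨x, y, h.1.symm, h.2.1.symm, h.2.2.symm⟩
      · rintro ⟨x, y, rfl, rfl, rfl⟩
        exact ⟨x, y, rfl⟩
    have hT : IsTab W a e0 M' := ⟨H ⧸ N', inferInstance, k.comp ι, e', he', fun x => by
      rw [MonoidHom.comp_apply, he'1, hι], hQ, hQA, hM'⟩
    have hle : M ⊆ M' := by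
      rintro ⟨s, t, u⟩ hm
      obtain ⟨x, y, rfl, rfl, rfl⟩ := (hM s t u).mp hm
      refine (hM' _ _ _).mpr ⟨k x, k y, he'1 x, he'1 y, ?_⟩
      rw [← map_mul, he'1]
    have hge : M' ⊆ M := hmax.2 hT hle
    intro q
    have h4 : (e' q, e' q, e' (q * q)) ∈ M := hge ⟨q, q, rfl⟩
    obtain ⟨x, -, h5, -, -⟩ := (hM _ _ _).mp h4
    by_contra hq
    rw [he'2 q hq] at h5
    exact (g q).2 ⟨x, h5⟩
  let ke := MulEquiv.ofBijective k ⟨hkinj, hksurj⟩
  refine ⟨ke.symm.toMonoidHom.comp (QuotientGroup.mk' N'), fun x => ?_, fun x hx => ?_⟩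
  · show ke.symm (k x) = x
    exact ke.symm_apply_apply x
  · show ke.symm ((QuotientGroup.mk' N') x) = 1
    have h1 : (QuotientGroup.mk' N') x = 1 := (QuotientGroup.eq_one_iff x).mpr (hNN' hx)
    rw [h1, map_one]

end Pool.Agent.helper80.RN
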