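import Pool.Agent.helper7.RC.Mon
import Pool.Agent.helper66.RC.Fin
import Pool.Agent.helper80.RN.AR

/-!
# Subdirectly irreducible groups with nonabelian monolith

In a residually small variety in which every subdirectly irreducible group with nonabelian monolith is smaller than
the continuum, these groups are finite.
-/

namespace Pool.Agent.helper80.RN

open Pool.Agent.helper80.RSV Pool.Agent.helper7.RC Function

/-- `G` is subdirectly irreducible and its least normal subgroup is nonabelian -/
def NonabSI (G : Type) [Group G] : Prop := ∃ A : Subgroup G, LeastNormal A ∧ ¬ AbSub A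

/-- the subdirectly irreducible groups of the variety with nonabelian least normal subgroup are smaller than the
continuum -/
def SmallNonab (W : Set (FreeGroup ℕ)) : Prop :=
  ∀ (G : Type) [Group G], Sat W G → NonabSI G → Cardinal.mk G < Cardinal.continuum

theorem nonab_finite {W : Set (FreeGroup ℕ)} (hR : ResSmall W) (hc : SmallNonab W) {G : Type} [Group G]
    (hG : Sat W G) (hn : NonabSI G) : Finite G := by
  obtain ⟨A0, hA0, hA0n⟩ := hn
  obtain ⟨⟨a, haM⟩, ha1⟩ := Subgroup.ne_bot_iff_exists_ne_one.mp hA0.2.1
  have ha : ASI a := ⟨fun h => ha1 (Subtype.ext h), fun N hN hne => hA0.2.2 N hN hne haM⟩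
  obtain ⟨E, _, ι, hι, hE, hb, hAR⟩ := exists_AR hR hG ha
  obtain ⟨A, hA⟩ : ∃ A : Subgroup E, LeastNormal A := hb.subdirIrr
  have hAn := hA.1
  have hA1 : ι a ∈ A := hb.2 A hA.1 hA.2.1
  have hAna : ¬ AbSub A := by
    intro hab
    apply hA0n
    have h1 : A.comap ι ≠ ⊥ := by
      intro hbot
      have h2 : a ∈ A.comap ι := hA1
      rw [hbot, Subgroup.mem_bot] at h2
      exact ha.1 h2
    have h2 : A0 ≤ A.comap ι := hA0.2.2 _ inferInstance h1
    intro x hx y hy
    apply hι
    rw [map_mul, map_mul]
    exact hab _ (h2 hx) _ (h2 hy)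
  have hcard : Cardinal.mk E < Cardinal.continuum := hc E hE ⟨A, hA, hAna⟩
  obtain ⟨K, hKn, hK⟩ := exists_K hE hAR hb.1
  have hKC := K_le_centralizer hE hAR hb hcard hK hKn hA
  obtain ⟨k, hk⟩ := exists_U_le_K hE hAR hb hcard hK
  have hC : Subgroup.centralizer (A : Set E) = ⊥ := by
    by_contra hne
    apply hAna
    intro x hx y hy
    have h1 := hA.2.2 (Subgroup.centralizer (A : Set E)) inferInstance hne hy
    rw [Subgroup.mem_centralizer_iff] at h1
    exact h1 x hx
  have hU : ∀ y : E, y ≠ 1 → ι a ∈ Ncl k y := by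
    intro y hy
    by_contra h
    apply hy
    have h1 : y ∈ Subgroup.centralizer (A : Set E) := hKC (hk h)
    rwa [hC, Subgroup.mem_bot] at h1
  have hEf : Finite E := by
    by_contra hinf
    rw [not_finite_iff_infinite] at hinf
    obtain ⟨m, hm⟩ := bdd_of_rs hR k
    let c : Fin m → E := fun i => (Infinite.natEmbedding E) i
    have hci : Injective c := fun i j h => Fin.ext ((Infinite.natEmbedding E).injective h)
    obtain ⟨i, j, hij, hno⟩ := hm E hE (ι a) hb.1 c
    apply hno
    apply hU
    intro h1
    apply hij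
    apply hci
    rw [← mul_right_inj (c i)⁻¹, h1, inv_mul_cancel]
  exact Finite.of_injective ι hι

end Pool.Agent.helper80.RN
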