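import Pool.Agent.helper80.RN.Gen
import Pool.Agent.helper90.CPT.Dbl
import Pool.Agent.helper31.CPT.TopW
import Pool.Agent.helper65.CPT.Fin

/-!
# Theorem N with the compactness conditions
-/

namespace Pool.Agent.helper80.RN

open Pool.Agent.helper80.RSV Pool.Agent.helper7.RC Pool.Agent.helper31.CPT Function

/-- the centre of a subdirectly irreducible group with nonabelian monolith is trivial -/
theorem center_triv {G : Type} [Group G] (hn : NonabSI G) : ∀ x : G, (∀ g, g * x = x * g) → x = 1 := by
  obtain ⟨A, hA, hna⟩ := hn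
  intro x hx
  by_contra hne
  apply hna
  have h1 : Subgroup.center G ≠ ⊥ := by
    intro h
    apply hne
    rw [← Subgroup.mem_bot, ← h]
    exact Subgroup.mem_center_iff.mpr hx
  have h2 := hA.2.2 _ inferInstance h1
  intro u hu v hv
  exact (Subgroup.mem_center_iff.mp (h2 hv) u)

/-- `G` embeds in a compact Hausdorff group -/
def InCompact (G : Type) [Group G] : Prop :=
  ∃ (H : Type) (_ : Group H) (_ : TopologicalSpace H) (_ : IsTopologicalGroup H) (_ : CompactSpace H)
    (_ : T2Space H) (ι : G →* H), Injective ι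

/-- for some `a ≠ 1` in all nontrivial normal subgroups and some `k`, for every `y` the element `a` is a product of
`k` elements `h y⁻¹ y ^ g h⁻¹`, or it is such a product for `y⁻¹ a` in place of `y` -/
def Sep (G : Type) [Group G] : Prop :=
  ∃ (a : G) (k : ℕ), ASI a ∧ ∀ y : G, a ∈ Ncl k y ∨ a ∈ Ncl k (y⁻¹ * a)

theorem finite_of_inCompact {W : Set (FreeGroup ℕ)} (hR : ResSmall W) {G : Type} [Group G] (hG : Sat W G)
    (hn : NonabSI G) (h : InCompact G) : Finite G := by
  obtain ⟨H, _, _, _, _, _, ι, hι⟩ := h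
  exact Pool.Agent.helper65.CPT.fin_of_compact hR hG hn ι hι

theorem finite_of_sep {W : Set (FreeGroup ℕ)} (hR : ResSmall W) {G : Type} [Group G] (hG : Sat W G)
    (hn : NonabSI G) (h : Sep G) : Finite G := by
  obtain ⟨a, k, ha, h⟩ := h
  obtain ⟨H, _, _, _, _, _, ι, _, hι⟩ := exists_compact_group' (bdd_of_rs hR) hG ha.1 ha.2 (center_triv hn)
    (Pool.Agent.helper90.CPT.doubling hn ha h)
  exact Pool.Agent.helper65.CPT.fin_of_compact hR hG hn ι hι

theorem inCompact_of_finite {G : Type} [Group G] [Finite G] : InCompact G := by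
  let _ : TopologicalSpace G := ⊥
  have : DiscreteTopology G := ⟨rfl⟩
  exact ⟨G, inferInstance, inferInstance, inferInstance, inferInstance, inferInstance, MonoidHom.id G,
    injective_id⟩

/-- a maximal subdirectly irreducible group with nonabelian monolith, smaller than the continuum, is finite -/
theorem finite_AR {W : Set (FreeGroup ℕ)} (hR : ResSmall W) {E : Type} [Group E] (hE : Sat W E) {a : E}
    (hb : ASI a) (hAR : AR W E a) {A : Subgroup E} (hA : LeastNormal A) (hAna : ¬ AbSub A)
    (hcard : Cardinal.mk E < Cardinal.continuum) : Finite E := by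
  have hAn := hA.1
  obtain ⟨K, hKn, hK⟩ := exists_K hE hAR hb.1
  have hKC := K_le_centralizer hE hAR hb hcard hK hKn hA
  obtain ⟨k, hk⟩ := exists_U_le_K hE hAR hb hcard hK
  have hC : Subgroup.centralizer (A : Set E) = ⊥ := by
    by_contra hne
    apply hAna
    intro x hx y hy
    have h1 := hA.2.2 (Subgroup.centralizer (A : Set E)) inferInstance hne hy
    rw [Subgroup.mem_centralizer_iff] at h1
    exact h1 x hx
  have hU : ∀ y : E, y ≠ 1 → a ∈ Ncl k y := by
    intro y hy
    by_contra h
    apply hy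
    have h1 : y ∈ Subgroup.centralizer (A : Set E) := hKC (hk h)
    rwa [hC, Subgroup.mem_bot] at h1
  by_contra hinf
  rw [not_finite_iff_infinite] at hinf
  obtain ⟨m, hm⟩ := bdd_of_rs hR k
  let c : Fin m → E := fun i => (Infinite.natEmbedding E) i
  have hci : Injective c := fun i j h => Fin.ext ((Infinite.natEmbedding E).injective h)
  obtain ⟨i, j, hij, hno⟩ := hm E hE a hb.1 c
  apply hno
  apply hU
  intro h1
  apply hij
  apply hci
  rw [← mul_right_inj (c i)⁻¹, h1, inv_mul_cancel]

/-- if every subdirectly irreducible group with nonabelian monolith is smaller than the continuum, embeds in a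
compact group or is separated, then these groups are finite -/
theorem nonab_finite2 {W : Set (FreeGroup ℕ)} (hR : ResSmall W)
    (hc : ∀ (G : Type) [Group G], Sat W G → NonabSI G → Cardinal.mk G < Cardinal.continuum ∨ InCompact G ∨ Sep G)
    {G : Type} [Group G] (hG : Sat W G) (hn : NonabSI G) : Finite G := by
  obtain ⟨A0, hA0, hA0n⟩ := hn
  obtain ⟨⟨a, haM⟩, ha1⟩ := Subgroup.ne_bot_iff_exists_ne_one.mp hA0.2.1
  have ha : ASI a := ⟨fun h => ha1 (Subtype.ext h), fun N hN hne => hA0.2.2 N hN hne haM⟩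
  obtain ⟨E, _, ι, hι, hE, hb, hAR⟩ := exists_AR hR hG ha
  obtain ⟨A, hA⟩ : ∃ A : Subgroup E, LeastNormal A := hb.subdirIrr
  have hAn := hA.1
  have hA1 : ι a ∈ A := hb.2 A hA.1 hA.2.1
  have hAna : ¬ AbSub A := by
    intro hab
    apply hA0n
    have h1 : A.comap ι ≠ ⊥ := by
      intro hbot
      have h2 : a ∈ A.comap ι := hA1
      rw [hbot, Subgroup.mem_bot] at h2
      exact ha.1 h2
    have h2 : A0 ≤ A.comap ι := hA0.2.2 _ inferInstance h1
    intro x hx y hy
    apply hι
    rw [map_mul, map_mul]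
    exact hab _ (h2 hx) _ (h2 hy)
  have hEn : NonabSI E := ⟨A, hA, hAna⟩
  have hEf : Finite E := by
    rcases hc E hE hEn with h | h | h
    · exact finite_AR hR hE hb hAR hA hAna h
    · exact finite_of_inCompact hR hE hEn h
    · exact finite_of_sep hR hE hEn h
  exact Finite.of_injective ι hι

/-- **Theorem N**, with all conditions. -/
theorem final_RN2 (W : Set (FreeGroup ℕ)) :
    List.TFAE [
      ResSmall W ∧ ∀ (G : Type) [Group G], Sat W G → NonabSI G →
        Cardinal.mk G < Cardinal.continuum ∨ InCompact G ∨ Sep G,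
      ResSmall W ∧ ∀ (G : Type) [Group G], Sat W G → NonabSI G → Finite G,
      ResSmall W ∧ (∀ (G : Type) [Group G], Group.FG G → Sat W G → NonabSI G → InCompact G ∨ Sep G) ∧
        ∃ B : ℕ, SimpleLe W B,
      ∀ (G : Type) [Group G], Sat W G → SubdirIrr G → Cardinal.mk G < Cardinal.continuum,
      ∀ (G : Type) [Group G], Sat W G → SubdirIrr G → Countable G,
      ∃ (F : Type) (_ : Group F), Finite F ∧ AbSylow F ∧
        ((∀ (G : Type) [Group G], Sat W G ↔ InVar F G) ∨
          (∀ (G : Type) [Group G], Sat W G ↔ InVar (F × Multiplicative ℤ) G))] := by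
  have h := final_RN W
  tfae_have 4 ↔ 2 := h.out 3 1
  tfae_have 4 ↔ 5 := h.out 3 4
  tfae_have 4 ↔ 6 := h.out 3 5
  have h32 := h.out 2 1
  tfae_have 1 → 2 := by
    rintro ⟨hR, hc⟩
    exact ⟨hR, fun G _ hG hn => nonab_finite2 hR hc hG hn⟩
  tfae_have 2 → 1 := by
    rintro ⟨hR, hf⟩
    refine ⟨hR, fun G _ hG hn => ?_⟩
    have := hf G hG hn
    exact Or.inr (Or.inl inCompact_of_finite)
  tfae_have 2 → 3 := by
    rintro ⟨hR, hf⟩
    refine ⟨hR, fun G _ _ hG hn => ?_, (h32.mpr ⟨hR, hf⟩).2.2⟩
    have := hf G hG hn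
    exact Or.inl inCompact_of_finite
  tfae_have 3 → 2 := by
    rintro ⟨hR, hc, hB⟩
    refine h32.mp ⟨hR, fun G _ hfg hG hn => ?_, hB⟩
    rcases hc G hfg hG hn with h | h
    · exact finite_of_inCompact hR hG hn h
    · exact finite_of_sep hR hG hn h
  tfae_finish

end Pool.Agent.helper80.RN
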