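import Pool.Agent.helper80.RSV.Final

/-!
# Finitely generated groups in the variety of `F × ℤ` are central by finite
-/

namespace Pool.Agent.helper80.RN

open Pool.Agent.helper80.RSV Function

/-- `[w(x₁, x₂, …), x₀]` -/
def cw (w : FreeGroup ℕ) : FreeGroup ℕ :=
  FreeGroup.map Nat.succ w * FreeGroup.of 0 * (FreeGroup.map Nat.succ w)⁻¹ * (FreeGroup.of 0)⁻¹

theorem lift_cw {G : Type*} [Group G] (f : ℕ → G) (w : FreeGroup ℕ) :
    FreeGroup.lift f (cw w) = FreeGroup.lift (fun n => f (n + 1)) w * f 0 *
      (FreeGroup.lift (fun n => f (n + 1)) w)⁻¹ * (f 0)⁻¹ := by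
  have h1 : FreeGroup.lift f (FreeGroup.map Nat.succ w) = FreeGroup.lift (fun n => f (n + 1)) w := by
    rw [← MonoidHom.comp_apply]
    congr 1
    ext n
    simp
  simp only [cw, map_mul, map_inv, h1, FreeGroup.lift_apply_of]

theorem center_finiteIndex {F : Type} [Group F] [Finite F] {G : Type} [Group G] (hfg : Group.FG G)
    (h : InVar (F × Multiplicative ℤ) G) : (Subgroup.center G).FiniteIndex := by
  have h1 : InVar F (G ⧸ Subgroup.center G) := by
    intro w hw f
    choose f' hf' using fun n => QuotientGroup.mk'_surjective (Subgroup.center G) (f n)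
    have h2 : f = fun n => QuotientGroup.mk' (Subgroup.center G) (f' n) := funext fun n => (hf' n).symm
    rw [h2, ← map_lift]
    apply (QuotientGroup.eq_one_iff _).mpr
    rw [Subgroup.mem_center_iff]
    intro g
    have h3 : Law (cw w) (F × Multiplicative ℤ) := by
      intro e
      rw [lift_cw]
      have h4 : (FreeGroup.lift (fun n => e (n + 1)) w).1 = 1 := by
        have h5 := map_lift (MonoidHom.fst F (Multiplicative ℤ)) (fun n => e (n + 1)) w
        have h6 := hw fun n => (e (n + 1)).1
        exact h5.trans h6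
      ext
      · simp [h4]
      · simp
    have h7 := h (cw w) h3 (fun n => Nat.casesOn n g f')
    rw [lift_cw] at h7
    have h8 : FreeGroup.lift f' w * g * (FreeGroup.lift f' w)⁻¹ * g⁻¹ = 1 := h7
    have h9 : FreeGroup.lift f' w * g = FreeGroup.lift f' w * g * (FreeGroup.lift f' w)⁻¹ * g⁻¹ *
        (g * FreeGroup.lift f' w) := by group
    rw [h8, one_mul] at h9
    exact h9.symm
  have hfg' : Group.FG (G ⧸ Subgroup.center G) := inferInstance
  have := InVar.finite h1 hfg'
  exact Subgroup.finiteIndex_of_finite_quotient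

end Pool.Agent.helper80.RN
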