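import Pool.Agent.helper69.RN.Simple
import Pool.Agent.helper80.RN.Nonab
import Pool.Agent.helper80.RN.Cen
import Pool.Agent.helper24.RCN.FP
import Pool.Agent.helper80.RSV.Final

/-!
# The variety is generated by its virtually soluble groups
-/

namespace Pool.Agent.helper80.RN

open Pool.Agent.helper80.RSV Pool.Agent.helper7.RC Function

/-- the laws of all virtually soluble groups of the variety -/
def W1 (W : Set (FreeGroup ℕ)) : Set (FreeGroup ℕ) :=
  {w | ∀ (G : Type) [Group G], VirtSol G → Sat W G → Law w G}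

theorem sub_W1 (W : Set (FreeGroup ℕ)) : W ⊆ W1 W := fun w hw _ _ _ hG => hG w hw

theorem sat_W1 {W : Set (FreeGroup ℕ)} {G : Type} [Group G] (hf : VirtSol G) (hG : Sat W G) :
    Sat (W1 W) G := fun _ hw => hw G hf hG

/-- the verbal subgroup -/
def Verb (W : Set (FreeGroup ℕ)) (G : Type) [Group G] : Subgroup G :=
  Subgroup.closure {x | ∃ w ∈ W, ∃ f : ℕ → G, x = FreeGroup.lift f w}

theorem verb_normal (W : Set (FreeGroup ℕ)) (G : Type) [Group G] : (Verb W G).Normal := by
  refine ⟨fun x hx g => ?_⟩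
  have h1 : Verb W G ≤ (Verb W G).comap (MulAut.conj g).toMonoidHom := by
    unfold Verb
    rw [Subgroup.closure_le]
    rintro x ⟨w, hw, f, rfl⟩
    show (MulAut.conj g).toMonoidHom (FreeGroup.lift f w) ∈ Subgroup.closure _
    rw [map_lift]
    exact Subgroup.subset_closure ⟨w, hw, _, rfl⟩
  exact h1 hx

theorem verb_le {W : Set (FreeGroup ℕ)} {G H : Type} [Group G] [Group H] (φ : G →* H) (h : Sat W H) :
    Verb W G ≤ φ.ker := by
  unfold Verb
  rw [Subgroup.closure_le]
  rintro x ⟨w, hw, f, rfl⟩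
  show φ (FreeGroup.lift f w) = 1
  rw [map_lift]
  exact h w hw _

theorem sat_quotient_verb {W : Set (FreeGroup ℕ)} {G : Type} [Group G] {R : Subgroup G} [R.Normal]
    (hR : R = Verb W G) : Sat W (G ⧸ R) := by
  intro w hw f
  obtain ⟨f', hf'⟩ : ∃ f' : ℕ → G, ∀ n, QuotientGroup.mk' R (f' n) = f n := by
    choose f' hf' using fun n => QuotientGroup.mk'_surjective R (f n)
    exact ⟨f', hf'⟩
  have h1 : f = fun n => QuotientGroup.mk' R (f' n) := funext fun n => (hf' n).symm
  rw [h1, ← map_lift]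
  apply (QuotientGroup.eq_one_iff _).mpr
  rw [hR]
  exact Subgroup.subset_closure ⟨w, hw, f', rfl⟩

theorem virtSol_of_finite {G : Type} [Group G] [Finite G] : VirtSol G :=
  ⟨⊥, inferInstance, inferInstance, inferInstance⟩

/-- an extension of an abelian group by a group with centre of finite index is virtually soluble -/
theorem virtSol_ext {G H : Type} [Group G] [Group H] (π : G →* H) (hπ : Surjective π)
    (hker : AbSub π.ker) (hc : (Subgroup.center H).FiniteIndex) : VirtSol G := by
  refine ⟨(Subgroup.center H).comap π, inferInstance, ?_, ?_⟩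
  · refine ⟨?_⟩
    rw [Subgroup.index_comap_of_surjective _ hπ]
    exact hc.index_ne_zero
  · let g : (Subgroup.center H).comap π →* Subgroup.center H :=
      MonoidHom.mk' (fun x => ⟨π x, x.2⟩) (by
        intro a b
        apply Subtype.ext
        show π ((a * b : (Subgroup.center H).comap π) : G) = π a * π b
        rw [Subgroup.coe_mul, map_mul])
    have h1 : Group.IsSolvable g.ker := by
      apply Group.isSolvable_of_comm
      rintro ⟨⟨a, ha⟩, ha'⟩ ⟨⟨b, hb⟩, hb'⟩
      apply Subtype.ext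
      apply Subtype.ext
      have h2 : π a = 1 := congrArg Subtype.val ha'
      have h3 : π b = 1 := congrArg Subtype.val hb'
      exact hker a h2 b h3
    have h2 : Group.IsSolvable (Subgroup.center H) := by
      apply Group.isSolvable_of_comm
      rintro ⟨a, ha⟩ ⟨b, hb⟩
      apply Subtype.ext
      exact (Subgroup.mem_center_iff.mp hb a)
    exact Group.isSolvable_of_ker_le_range (g.ker.subtype) g (by rw [Subgroup.range_subtype])

/-- a chief factor with nonabelian quotient gives a subdirectly irreducible quotient with nonabelian monolith -/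
theorem nonabSI_of_chief {T : Type} [Group T] {A : Subgroup T} (hA : A.Normal) (hna : ¬ AbSub A)
    (hmin : ∀ N : Subgroup T, N.Normal → N ≤ A → N = ⊥ ∨ N = A) :
    NonabSI (T ⧸ Subgroup.centralizer (A : Set T)) ∧ ¬ A ≤ Subgroup.centralizer (A : Set T) := by
  obtain ⟨C, hC⟩ : ∃ C : Subgroup T, C = Subgroup.centralizer (A : Set T) := ⟨_, rfl⟩
  have hCn : C.Normal := by rw [hC]; infer_instance
  have hAC : ¬ A ≤ C := by
    intro h
    apply hna
    intro x hx y hy
    have h1 := h hy
    rw [hC, Subgroup.mem_centralizer_iff] at h1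
    exact h1 x hx
  have hCA : C ⊓ A = ⊥ := by
    rcases hmin (C ⊓ A) inferInstance inf_le_right with h | h
    · exact h
    · exact absurd (inf_eq_right.mp h) hAC
  subst hC
  refine ⟨⟨A.map (QuotientGroup.mk' _), ⟨?_, ?_, ?_⟩, ?_⟩, hAC⟩
  · exact hA.map _ (QuotientGroup.mk'_surjective _)
  · intro h
    rw [Subgroup.map_eq_bot_iff, QuotientGroup.ker_mk'] at h
    exact hAC h
  · intro N hN hne
    obtain ⟨q, hq, hq1⟩ : ∃ q ∈ N, q ≠ 1 := by
      by_contra hcon
      push Not at hcon
      exact hne ((Subgroup.eq_bot_iff_forall N).mpr hcon)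
    obtain ⟨x, rfl⟩ := QuotientGroup.mk'_surjective _ q
    have hx : x ∉ Subgroup.centralizer (A : Set T) := fun h => hq1 ((QuotientGroup.eq_one_iff x).mpr h)
    rw [Subgroup.mem_centralizer_iff] at hx
    push Not at hx
    obtain ⟨r, hr, hrx⟩ := hx
    have hr' : r ∈ A := hr
    have hNn : (N.comap (QuotientGroup.mk' (Subgroup.centralizer (A : Set T)))).Normal := inferInstance
    have h1 : r * x * r⁻¹ * x⁻¹ ∈ N.comap (QuotientGroup.mk' (Subgroup.centralizer (A : Set T))) ⊓ A := by
      refine ⟨?_, ?_⟩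
      · exact Subgroup.mul_mem _ (hNn.conj_mem x hq r) (Subgroup.inv_mem _ hq)
      · have h2 : x * r⁻¹ * x⁻¹ ∈ A := hA.conj_mem _ (A.inv_mem hr') x
        have h3 : r * x * r⁻¹ * x⁻¹ = r * (x * r⁻¹ * x⁻¹) := by group
        rw [h3]
        exact A.mul_mem hr' h2
    rcases hmin _ inferInstance
      (inf_le_right : N.comap (QuotientGroup.mk' (Subgroup.centralizer (A : Set T))) ⊓ A ≤ A) with h | h
    · rw [h, Subgroup.mem_bot] at h1
      exfalso
      apply hrx
      have h4 : r * x = r * x * r⁻¹ * x⁻¹ * (x * r) := by group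
      rw [h4, h1, one_mul]
    · rw [inf_eq_right] at h
      rintro y ⟨z, hz, rfl⟩
      exact h hz
  · intro hab
    apply hna
    intro x hx y hy
    have h1 := hab _ ⟨x, hx, rfl⟩ _ ⟨y, hy, rfl⟩
    rw [← map_mul, ← map_mul] at h1
    have h2 : (x * y)⁻¹ * (y * x) ∈ Subgroup.centralizer (A : Set T) := QuotientGroup.eq.mp h1
    have h3 : (x * y)⁻¹ * (y * x) ∈ Subgroup.centralizer (A : Set T) ⊓ A :=
      ⟨h2, A.mul_mem (A.inv_mem (A.mul_mem hx hy)) (A.mul_mem hy hx)⟩
    rw [hCA, Subgroup.mem_bot] at h3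
    exact (inv_mul_eq_one.mp h3)

/-- the finitely generated members satisfy the laws of the virtually soluble ones -/
theorem fg_sat {W : Set (FreeGroup ℕ)}
    (hfin : ∀ (G : Type) [Group G], Group.FG G → Sat W G → NonabSI G → Finite G)
    {F : Type} [Group F] [Finite F]
    (hF : ∀ (G : Type) [Group G], Sat (W1 W) G → InVar (F × Multiplicative ℤ) G)
    {G : Type} [Group G] (hfg : Group.FG G) (hG : Sat W G) : Sat (W1 W) G := by
  obtain ⟨R, hR⟩ : ∃ R : Subgroup G, R = Verb (W1 W) G := ⟨_, rfl⟩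
  have hRn : R.Normal := by rw [hR]; exact verb_normal _ _
  have hGR : Sat (W1 W) (G ⧸ R) := sat_quotient_verb hR
  have hfgR : Group.FG (G ⧸ R) := inferInstance
  have hcen := center_finiteIndex hfgR (hF _ hGR)
  suffices hbot : R = ⊥ by
    intro w hw f
    have h1 : FreeGroup.lift f w ∈ R := by
      rw [hR]
      exact Subgroup.subset_closure ⟨w, hw, f, rfl⟩
    rwa [hbot, Subgroup.mem_bot] at h1
  by_contra hne
  obtain ⟨s, hs⟩ := Pool.Agent.helper24.RCN.fp_lemma' hfg hcen
  obtain ⟨M, hMn, hMR, hMne, hmax⟩ := Pool.Agent.helper24.RCN.exists_chief hne hs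
  -- the chief factor in the quotient
  have hAn : (R.map (QuotientGroup.mk' M)).Normal := hRn.map _ (QuotientGroup.mk'_surjective _)
  have hcm : (R.map (QuotientGroup.mk' M)).comap (QuotientGroup.mk' M) = R := by
    rw [Subgroup.comap_map_eq, QuotientGroup.ker_mk', sup_eq_left.mpr hMR]
  have hmin : ∀ N : Subgroup (G ⧸ M), N.Normal → N ≤ R.map (QuotientGroup.mk' M) →
      N = ⊥ ∨ N = R.map (QuotientGroup.mk' M) := by
    intro N hN hle
    have h1 : M ≤ N.comap (QuotientGroup.mk' M) := by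
      intro x hx
      have h2 : (QuotientGroup.mk' M) x = 1 := (QuotientGroup.eq_one_iff x).mpr hx
      show (QuotientGroup.mk' M) x ∈ N
      rw [h2]
      exact N.one_mem
    have h2 : N.comap (QuotientGroup.mk' M) ≤ R := by
      rw [← hcm]
      exact Subgroup.comap_mono hle
    have h3 : (N.comap (QuotientGroup.mk' M)).map (QuotientGroup.mk' M) = N :=
      Subgroup.map_comap_eq_self_of_surjective (QuotientGroup.mk'_surjective M) N
    rcases hmax _ inferInstance h1 h2 with h | h
    · left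
      rw [← h3, h, Subgroup.map_eq_bot_iff, QuotientGroup.ker_mk']
    · right
      rw [← h3, h]
  have hGM : Sat W (G ⧸ M) := hG.quotient M
  -- the laws of the virtually soluble groups cannot hold modulo `M`
  have hno : ¬ Sat (W1 W) (G ⧸ M) := by
    intro h
    apply hMne
    refine le_antisymm hMR ?_
    have h1 := verb_le (QuotientGroup.mk' M) h
    rwa [← hR, QuotientGroup.ker_mk'] at h1
  by_cases hab : AbSub (R.map (QuotientGroup.mk' M))
  · apply hno
    refine sat_W1 ?_ hGM
    let π : G ⧸ M →* G ⧸ R := QuotientGroup.map M R (MonoidHom.id G) (by simpa using hMR)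
    have hπ : ∀ x : G, π ((QuotientGroup.mk' M) x) = (QuotientGroup.mk' R) x := fun x => rfl
    have hπs : Surjective π := by
      intro q
      obtain ⟨x, rfl⟩ := QuotientGroup.mk'_surjective R q
      exact ⟨(QuotientGroup.mk' M) x, hπ x⟩
    refine virtSol_ext π hπs ?_ hcen
    intro x hx y hy
    obtain ⟨x, rfl⟩ := QuotientGroup.mk'_surjective M x
    obtain ⟨y, rfl⟩ := QuotientGroup.mk'_surjective M y
    have hx' : x ∈ R := by
      rw [MonoidHom.mem_ker, hπ] at hx
      exact (QuotientGroup.eq_one_iff x).mp hx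
    have hy' : y ∈ R := by
      rw [MonoidHom.mem_ker, hπ] at hy
      exact (QuotientGroup.eq_one_iff y).mp hy
    exact hab _ ⟨x, hx', rfl⟩ _ ⟨y, hy', rfl⟩
  · obtain ⟨hSI, hAC⟩ := nonabSI_of_chief hAn hab hmin
    have hsat : Sat W ((G ⧸ M) ⧸ Subgroup.centralizer (R.map (QuotientGroup.mk' M) : Set (G ⧸ M))) :=
      hGM.quotient _
    have hfgQ : Group.FG ((G ⧸ M) ⧸ Subgroup.centralizer (R.map (QuotientGroup.mk' M) : Set (G ⧸ M))) :=
      inferInstance
    have hf := hfin _ hfgQ hsat hSI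
    have h1 : Sat (W1 W) ((G ⧸ M) ⧸ Subgroup.centralizer (R.map (QuotientGroup.mk' M) : Set (G ⧸ M))) :=
      sat_W1 virtSol_of_finite hsat
    have h2 := verb_le ((QuotientGroup.mk' (Subgroup.centralizer (R.map (QuotientGroup.mk' M) : Set (G ⧸ M)))).comp
      (QuotientGroup.mk' M)) h1
    rw [← hR] at h2
    apply hAC
    rintro y ⟨x, hx, rfl⟩
    exact (QuotientGroup.eq_one_iff _).mp (h2 hx)

theorem genVSB_N {W : Set (FreeGroup ℕ)} (hR : ResSmall W)
    (hfin : ∀ (G : Type) [Group G], Group.FG G → Sat W G → NonabSI G → Finite G) {B : ℕ}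
    (hB : ∀ (S : Type) [Group S], Sat W S → Finite S → IsSimpleGroup S → (∃ x y : S, x * y ≠ y * x) →
      Nat.card S ≤ B) : GenVSB W B := by
  have hsec : ∀ (G : Type) [Group G], Sat W G → SimpleSec B G := by
    intro G _ hG K S _ φ hφ hfS hsS hna
    exact hB S ((hG.subgroup K).of_surjective φ hφ) hfS hsS hna
  have hR1 : ResSmall (W1 W) := hR.mono (sub_W1 W)
  have hG1 : GenVSB (W1 W) B := by
    intro w hw G _ hG
    have : w ∈ W1 W := fun H _ hf hH => hw H hf (hsec H hH) (sat_W1 hf hH)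
    exact hG w this
  obtain ⟨F, _, hFf, hFA, hF⟩ := (final (W1 W) (Or.inl ⟨B, hG1⟩)).1.mp hR1
  have hF' : ∀ (G : Type) [Group G], Sat (W1 W) G → InVar (F × Multiplicative ℤ) G := by
    intro G _ hG
    rcases hF with hF | hF
    · exact ((hF G).mp hG).prod_int
    · exact (hF G).mp hG
  intro w hw G _ hG f
  have hw1 : w ∈ W1 W := fun H _ hf hH => hw H hf (hsec H hH) hH
  obtain ⟨k, hk⟩ := exists_bound w
  set H : Subgroup G := Subgroup.closure (f '' {n | n < k}) with hH
  have hmem : ∀ n, n < k → f n ∈ H := fun n hn => Subgroup.subset_closure ⟨n, hn, rfl⟩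
  set f' : ℕ → H := fun n => if h : n < k then ⟨f n, hmem n h⟩ else 1 with hf'
  have hfg : Group.FG H := by
    rw [Group.fg_iff_subgroup_fg, Subgroup.fg_iff]
    exact ⟨_, hH.symm, (Set.finite_lt_nat k).image _⟩
  have h1 := fg_sat hfin hF' hfg (hG.subgroup H) w hw1 f'
  have h2 := map_lift H.subtype f' w
  rw [h1, map_one] at h2
  rw [h2]
  apply hk G
  intro n hn
  simp [hf', hn]

/-- the finite nonabelian simple groups of the variety have order at most `B` -/
def SimpleLe (W : Set (FreeGroup ℕ)) (B : ℕ) : Prop :=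
  ∀ (S : Type) [Group S], Sat W S → Finite S → IsSimpleGroup S → (∃ x y : S, x * y ≠ y * x) → Nat.card S ≤ B

/-- **Theorem N.** -/
theorem final_RN (W : Set (FreeGroup ℕ)) :
    List.TFAE [
      ResSmall W ∧ ∀ (G : Type) [Group G], Sat W G → NonabSI G → Cardinal.mk G < Cardinal.continuum,
      ResSmall W ∧ ∀ (G : Type) [Group G], Sat W G → NonabSI G → Finite G,
      ResSmall W ∧ (∀ (G : Type) [Group G], Group.FG G → Sat W G → NonabSI G → Finite G) ∧ ∃ B : ℕ, SimpleLe W B,
      ∀ (G : Type) [Group G], Sat W G → SubdirIrr G → Cardinal.mk G < Cardinal.continuum,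
      ∀ (G : Type) [Group G], Sat W G → SubdirIrr G → Countable G,
      ∃ (F : Type) (_ : Group F), Finite F ∧ AbSylow F ∧
        ((∀ (G : Type) [Group G], Sat W G ↔ InVar F G) ∨
          (∀ (G : Type) [Group G], Sat W G ↔ InVar (F × Multiplicative ℤ) G))] := by
  tfae_have 1 → 2 := by
    rintro ⟨hR, hc⟩
    exact ⟨hR, fun G _ hG hn => nonab_finite hR hc hG hn⟩
  tfae_have 2 → 3 := by
    rintro ⟨hR, hfin⟩
    exact ⟨hR, fun G _ _ hG hn => hfin G hG hn, Pool.Agent.helper69.RN.simple_bounded hR hfin⟩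
  tfae_have 3 → 6 := by
    rintro ⟨hR, hfin, B, hB⟩
    exact (final W (Or.inl ⟨B, genVSB_N hR hfin hB⟩)).1.mp hR
  tfae_have 6 → 5 := by
    rintro ⟨F, _, hFf, hFA, hF⟩
    exact fun G _ hG hSI => countable_of_class hFA hF G hG hSI
  tfae_have 5 → 4 := by
    intro h G _ hG hSI
    have := h G hG hSI
    exact lt_of_le_of_lt Cardinal.mk_le_aleph0 Cardinal.aleph0_lt_continuum
  tfae_have 4 → 1 := by
    intro h
    refine ⟨⟨Cardinal.continuum, h⟩, fun G _ hG hn => ?_⟩
    obtain ⟨A, hA, -⟩ := hn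
    exact h G hG ⟨A, hA⟩
  tfae_finish

end Pool.Agent.helper80.RN
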